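import Pool.Agent.Helper50.VD.St

open MeasureTheory Set Filter Topology
open scoped ENNReal

noncomputable section

namespace VD.M_P1

/-! ### continuity -/

theorem cont_ulog : Continuous (fun p : ℝ × ℝ => p.2 * Real.log (p.1 ^ 2 + p.2 ^ 2)) := by
  rw [continuous_iff_continuousAt]
  intro p
  by_cases h : p.1 ^ 2 + p.2 ^ 2 = 0
  · have h1 : p.1 = 0 := by nlinarith [sq_nonneg p.1, sq_nonneg p.2]
    have h2 : p.2 = 0 := by nlinarith [sq_nonneg p.1, sq_nonneg p.2]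
    have h3 : ∀ q : ℝ × ℝ, ‖q.2 * Real.log (q.1 ^ 2 + q.2 ^ 2)‖ ≤
        |2 * (Real.sqrt (q.1 ^ 2 + q.2 ^ 2) * Real.log (Real.sqrt (q.1 ^ 2 + q.2 ^ 2)))| := by
      intro q
      have hs : 0 ≤ q.1 ^ 2 + q.2 ^ 2 := by positivity
      rw [Real.log_sqrt hs, Real.norm_eq_abs]
      have h4 : 2 * (Real.sqrt (q.1 ^ 2 + q.2 ^ 2) * (Real.log (q.1 ^ 2 + q.2 ^ 2) / 2)) =
          Real.sqrt (q.1 ^ 2 + q.2 ^ 2) * Real.log (q.1 ^ 2 + q.2 ^ 2) := by ring
      rw [h4, abs_mul, abs_mul]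
      apply mul_le_mul_of_nonneg_right _ (abs_nonneg _)
      rw [abs_of_nonneg (Real.sqrt_nonneg _)]
      apply Real.abs_le_sqrt
      nlinarith [sq_nonneg q.1]
    have h5 : Continuous (fun q : ℝ × ℝ =>
        |2 * (Real.sqrt (q.1 ^ 2 + q.2 ^ 2) * Real.log (Real.sqrt (q.1 ^ 2 + q.2 ^ 2)))|) := by
      have h6 := Real.continuous_mul_log
      have h7 : Continuous (fun q : ℝ × ℝ => Real.sqrt (q.1 ^ 2 + q.2 ^ 2)) := by fun_prop
      exact (continuous_const.mul (h6.comp h7)).abs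
    have h8 := h5.tendsto p
    have h9 : (fun q : ℝ × ℝ => p.2 * Real.log (p.1 ^ 2 + p.2 ^ 2)) p = 0 := by
      simp [h2]
    show Tendsto (fun p : ℝ × ℝ => p.2 * Real.log (p.1 ^ 2 + p.2 ^ 2)) (𝓝 p)
      (𝓝 (p.2 * Real.log (p.1 ^ 2 + p.2 ^ 2)))
    rw [show p.2 * Real.log (p.1 ^ 2 + p.2 ^ 2) = 0 by rw [h2, zero_mul]]
    refine squeeze_zero_norm h3 ?_
    have h10 : |2 * (Real.sqrt (p.1 ^ 2 + p.2 ^ 2) *
        Real.log (Real.sqrt (p.1 ^ 2 + p.2 ^ 2)))| = 0 := by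
      rw [h]
      simp
    rw [h10] at h8
    exact h8
  · exact continuousAt_snd.mul (ContinuousAt.log (by fun_prop) h)

theorem cont_xatan : Continuous (fun p : ℝ × ℝ => p.1 * Real.arctan (p.2 / p.1)) := by
  rw [continuous_iff_continuousAt]
  intro p
  by_cases h : p.1 = 0
  · show Tendsto (fun p : ℝ × ℝ => p.1 * Real.arctan (p.2 / p.1)) (𝓝 p)
      (𝓝 (p.1 * Real.arctan (p.2 / p.1)))
    rw [show p.1 * Real.arctan (p.2 / p.1) = 0 by rw [h, zero_mul]]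
    have h1 : ∀ q : ℝ × ℝ, ‖q.1 * Real.arctan (q.2 / q.1)‖ ≤ |q.1| * (Real.pi / 2) := by
      intro q
      rw [Real.norm_eq_abs, abs_mul]
      apply mul_le_mul_of_nonneg_left _ (abs_nonneg _)
      rw [abs_le]
      exact ⟨(Real.neg_pi_div_two_lt_arctan _).le, (Real.arctan_lt_pi_div_two _).le⟩
    refine squeeze_zero_norm h1 ?_
    have h2 : Continuous (fun q : ℝ × ℝ => |q.1| * (Real.pi / 2)) := by fun_prop
    have h3 := h2.tendsto p
    rw [h, abs_zero, zero_mul] at h3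
    exact h3
  · refine continuousAt_fst.mul (Real.continuous_arctan.continuousAt.comp ?_)
    exact continuousAt_snd.div continuousAt_fst h

theorem cont_Ft : Continuous (fun p : ℝ × ℝ => Ft p.1 p.2) := by
  have h1 := cont_ulog
  have h2 := cont_xatan
  have h3 : (fun p : ℝ × ℝ => Ft p.1 p.2) = fun p => p.2 * Real.log (p.1 ^ 2 + p.2 ^ 2) -
      2 * p.2 + 2 * (p.1 * Real.arctan (p.2 / p.1)) := by
    funext p
    unfold Ft
    ring
  rw [h3]
  exact (h1.sub (continuous_const.mul continuous_snd)).add (continuous_const.mul h2)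

theorem ii_Ft {f u : ℝ → ℝ} (hf : Continuous f) (hu : Continuous u) (a b : ℝ) :
    IntervalIntegrable (fun x => Ft (f x) (u x)) volume a b :=
  (cont_Ft.comp (hf.prodMk hu)).intervalIntegrable a b

/-! ### one side -/

/-- bottom vertex function -/
def Bf (Z ξ : ℝ) : ℝ :=
  Vf ξ Z + Z / 2 * ξ * Real.log (ξ ^ 2 + Z ^ 2) + Z ^ 2 * Real.arctan (ξ / Z) - 3 / 2 * (ξ * Z)

/-- vertex function of the columns -/
def Kf (X Z x h : ℝ) : ℝ :=
  Vf (x + X) (h + Z) - Vf (x + X) (h + -Z) - 2 * Bf Z (x + X) - 3 * x * Z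

theorem bottom (hP1a : StP1a) (x0 x1 X Z : ℝ) (hx : x0 < x1) (hZ : 0 < Z) :
    ∫ x in x0..x1, Ft (x + X) Z = Bf Z (x1 + X) - Bf Z (x0 + X) := by
  have h1 := hP1a x0 0 x1 0 X Z hx
  have h2 : ∀ x, (0 : ℝ) + (0 - 0) * ((x - x0) / (x1 - x0)) + Z = Z := fun x => by ring
  simp only [h2] at h1
  rw [h1]
  have hD : 0 < x1 - x0 := sub_pos.mpr hx
  have h3 : Wf x0 0 x1 0 X Z = Z / 2 * ((x1 + X) * Real.log ((x1 + X) ^ 2 + Z ^ 2) -
      (x0 + X) * Real.log ((x0 + X) ^ 2 + Z ^ 2)) +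
      Z ^ 2 * (Real.arctan ((x1 + X) / Z) - Real.arctan ((x0 + X) / Z)) := by
    unfold Wf
    simp only [mul_zero, sub_self, zero_mul, add_zero, zero_add, sub_zero]
    have hd : |(x1 - x0) * Z| = (x1 - x0) * Z := abs_of_pos (mul_pos hD hZ)
    rw [hd]
    have e1 : (x1 - x0) * (x1 + X) / ((x1 - x0) * Z) = (x1 + X) / Z := by
      field_simp
    have e0 : (x1 - x0) * (x0 + X) / ((x1 - x0) * Z) = (x0 + X) / Z := by
      field_simp
    rw [e1, e0]
    field_simp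
    ring
  rw [h3]
  unfold Bf
  simp only [zero_add]
  ring

theorem side (hP1a : StP1a) (x0 h0 x1 h1 X Z : ℝ) (hx : x0 < x1) (hZ : 0 < Z) :
    ∫ x in x0..x1, Th (x + X) (h0 + (h1 - h0) * ((x - x0) / (x1 - x0))) Z =
      Kf X Z x1 h1 - Kf X Z x0 h0 + Wf x0 h0 x1 h1 X Z - Wf x0 h0 x1 h1 X (-Z) := by
  have hc : Continuous (fun x : ℝ => h0 + (h1 - h0) * ((x - x0) / (x1 - x0))) := by fun_prop
  have hc1 : Continuous (fun x : ℝ => x + X) := by fun_prop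
  have i1 := ii_Ft hc1 (by fun_prop :
    Continuous (fun x : ℝ => h0 + (h1 - h0) * ((x - x0) / (x1 - x0)) + Z)) x0 x1
  have i2 := ii_Ft hc1 (by fun_prop :
    Continuous (fun x : ℝ => h0 + (h1 - h0) * ((x - x0) / (x1 - x0)) - Z)) x0 x1
  have i3 := (ii_Ft hc1 (continuous_const (y := Z)) x0 x1).const_mul 2
  unfold Th
  rw [intervalIntegral.integral_sub (i1.sub i2) i3, intervalIntegral.integral_sub i1 i2,
    intervalIntegral.integral_const_mul, bottom hP1a x0 x1 X Z hx hZ, hP1a x0 h0 x1 h1 X Z hx]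
  have h2 := hP1a x0 h0 x1 h1 X (-Z) hx
  simp only [← sub_eq_add_neg] at h2 ⊢
  rw [h2]
  unfold Kf
  simp only [← sub_eq_add_neg]
  ring

/-! ### the terms -/

theorem evL_nil : evL [] = 0 := rfl

theorem evL_cons (t : Tm) (l : List Tm) : evL (t :: l) = t.ev + evL l := rfl

theorem evL_append (l l' : List Tm) : evL (l ++ l') = evL l + evL l' := by
  unfold evL
  rw [List.map_append, List.sum_append]

theorem ev_atS (a : ℤ) (b : ℕ) (t : ℤ) (q : ℕ) :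
    (atS a b t q).ev = (a : ℝ) / b * Real.arctan ((t : ℝ) / q) := by
  unfold atS
  split_ifs with h
  · simp only [Tm.ev]
    have h1 : ((t.toNat : ℕ) : ℝ) = (t : ℝ) := by
      have := Int.toNat_of_nonneg h
      exact_mod_cast this
    rw [h1]
  · simp only [Tm.ev]
    have h1 : (((-t).toNat : ℕ) : ℝ) = -(t : ℝ) := by
      have := Int.toNat_of_nonneg (by omega : 0 ≤ -t)
      exact_mod_cast this
    rw [h1, neg_div, Real.arctan_neg]
    push_cast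
    ring

theorem toNat_cast {a : ℤ} (h : 0 ≤ a) : ((a.toNat : ℕ) : ℝ) = (a : ℝ) := by
  have := Int.toNat_of_nonneg h
  exact_mod_cast this

theorem ev_lg (a : ℤ) (b m : ℕ) : (Tm.lg a b m).ev = (a : ℝ) / b * Real.log m := rfl

theorem ev_edT' (d t0 t1 : ℤ) (n r0 r1 : ℕ) (s2 : ℤ) :
    evL (edT' d t0 t1 n r0 r1 s2) = s2 * ((d : ℝ) / (2 * n) * (t1 * Real.log r1 -
      t0 * Real.log r0) +
      (d : ℝ) * |(d : ℝ)| / n * (Real.arctan (t1 / |(d : ℝ)|) - Real.arctan (t0 / |(d : ℝ)|))) := by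
  unfold edT'
  split_ifs with h
  · rw [evL_nil, h]
    simp
  · simp only [evL_cons, evL_nil, ev_atS, ev_lg]
    have hd : ((d.natAbs : ℕ) : ℝ) = |(d : ℝ)| := by
      rw [Nat.cast_natAbs, Int.cast_abs]
    rw [hd]
    push_cast
    ring

theorem ev_edT (x0 h0 x1 h1 X Z s2 : ℤ) :
    evL (edT x0 h0 x1 h1 X Z s2) = s2 * Wf x0 h0 x1 h1 X Z := by
  unfold edT Wf
  rw [ev_edT']
  have hn : 0 ≤ (x1 - x0) * (x1 - x0) + (h0 - h1) * (h0 - h1) :=
    add_nonneg (mul_self_nonneg _) (mul_self_nonneg _)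
  have hr0 : 0 ≤ (x0 + X) * (x0 + X) + (h0 + Z) * (h0 + Z) :=
    add_nonneg (mul_self_nonneg _) (mul_self_nonneg _)
  have hr1 : 0 ≤ (x1 + X) * (x1 + X) + (h1 + Z) * (h1 + Z) :=
    add_nonneg (mul_self_nonneg _) (mul_self_nonneg _)
  rw [toNat_cast hn, toNat_cast hr0, toNat_cast hr1]
  push_cast
  have e0 : ((x0 : ℝ) + X) * (x0 + X) + (h0 + Z) * (h0 + Z) =
      (x0 + X) ^ 2 + (h0 + Z) ^ 2 := by ring
  have e1 : ((x1 : ℝ) + X) * (x1 + X) + (h1 + Z) * (h1 + Z) =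
      (x1 + X) ^ 2 + (h1 + Z) ^ 2 := by ring
  have e2 : ((x1 : ℝ) - x0) * (x1 - x0) + (h0 - h1) * (h0 - h1) =
      (x1 - x0) ^ 2 + (h0 - h1) ^ 2 := by ring
  rw [e0, e1, e2]

theorem ev_edAll (X Z x0 h0 x1 h1 : ℤ) :
    evL (edAll X Z x0 h0 x1 h1) =
      (Wf x0 h0 x1 h1 X Z - Wf x0 h0 x1 h1 X (-Z)) +
      (Wf x0 h0 x1 h1 (-X) Z - Wf x0 h0 x1 h1 (-X) (-Z)) := by
  unfold edAll
  simp only [evL_append, ev_edT]
  push_cast
  ring

/-! ### telescoping -/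

/-- increasing abscissas -/
def inc : List (ℕ × ℕ) → Prop
  | a :: b :: l => a.1 < b.1 ∧ inc (b :: l)
  | _ => True

/-- last vertex -/
def lst (a : ℕ × ℕ) : List (ℕ × ℕ) → ℕ × ℕ
  | [] => a
  | b :: l => lst b l

theorem tele (hP1a : StP1a) (X Z : ℕ) (hZ : 0 < Z) (l : List (ℕ × ℕ)) :
    ∀ a : ℕ × ℕ, inc (a :: l) → colS X Z (a :: l) =
      (Kf X Z (lst a l).1 (lst a l).2 + Kf (-X) Z (lst a l).1 (lst a l).2) -
      (Kf X Z a.1 a.2 + Kf (-X) Z a.1 a.2) + evL (edges X Z (a :: l)) := by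
  induction l with
  | nil =>
    intro a _
    show (0 : ℝ) = _
    simp only [lst, edges, evL_nil]
    ring
  | cons b l ih =>
    intro a h
    obtain ⟨hab, hl⟩ := h
    obtain ⟨x0, h0⟩ := a
    obtain ⟨x1, h1⟩ := b
    have hab' : (x0 : ℝ) < x1 := by exact_mod_cast hab
    have hZ' : (0 : ℝ) < Z := by exact_mod_cast hZ
    have ih' := ih (x1, h1) hl
    show (∫ x in (x0 : ℝ)..(x1 : ℝ),
      (Th (x - X) (h0 + ((h1 : ℝ) - h0) * ((x - x0) / ((x1 : ℝ) - x0))) Z +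
       Th (x + X) (h0 + ((h1 : ℝ) - h0) * ((x - x0) / ((x1 : ℝ) - x0))) Z)) +
      colS X Z ((x1, h1) :: l) = _
    rw [ih']
    have hc : Continuous (fun x : ℝ => (h0 : ℝ) + (h1 - h0) * ((x - x0) / (x1 - x0))) := by
      fun_prop
    have hTh : ∀ Y : ℝ, IntervalIntegrable (fun x : ℝ =>
        Th (x + Y) (h0 + ((h1 : ℝ) - h0) * ((x - x0) / ((x1 : ℝ) - x0))) Z) volume x0 x1 := by
      intro Y
      have hc1 : Continuous (fun x : ℝ => x + Y) := by fun_prop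
      have i1 := ii_Ft hc1 (by fun_prop : Continuous
        (fun x : ℝ => (h0 : ℝ) + (h1 - h0) * ((x - x0) / (x1 - x0)) + Z)) x0 x1
      have i2 := ii_Ft hc1 (by fun_prop : Continuous
        (fun x : ℝ => (h0 : ℝ) + (h1 - h0) * ((x - x0) / (x1 - x0)) - Z)) x0 x1
      have i3 := (ii_Ft hc1 (continuous_const (y := (Z : ℝ))) x0 x1).const_mul 2
      exact (i1.sub i2).sub i3
    have s1 := side hP1a x0 h0 x1 h1 X Z hab' hZ'
    have s2 := side hP1a x0 h0 x1 h1 (-X) Z hab' hZ'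
    have hm := hTh (-X)
    simp only [← sub_eq_add_neg] at s2 hm
    rw [intervalIntegral.integral_add hm (hTh X), s1, s2]
    simp only [lst, edges, evL_append, ev_edAll]
    push_cast
    ring

/-! ### oddness -/

theorem Vf_neg_left (ξ u : ℝ) : Vf (-ξ) u = -Vf ξ u := by
  unfold Vf
  rw [neg_sq, div_neg, Real.arctan_neg]
  ring

theorem Vf_neg_right (ξ u : ℝ) : Vf ξ (-u) = -Vf ξ u := by
  unfold Vf
  rw [neg_sq, neg_div, Real.arctan_neg]
  ring

theorem Bf_neg (Z ξ : ℝ) : Bf Z (-ξ) = -Bf Z ξ := by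
  unfold Bf
  rw [Vf_neg_left, neg_sq, neg_div, Real.arctan_neg]
  ring

theorem Kf_zero (X Z h : ℝ) : Kf X Z 0 h + Kf (-X) Z 0 h = 0 := by
  unfold Kf
  simp only [zero_add, Vf_neg_left, Bf_neg]
  ring

theorem Kf_end (X Z x : ℝ) : Kf X Z x 0 = -(Z * (x + X)) * Real.log ((x + X) ^ 2 + Z ^ 2) -
    2 * Z ^ 2 * Real.arctan ((x + X) / Z) + 3 * X * Z := by
  unfold Kf Bf
  simp only [zero_add, Vf_neg_right]
  ring

theorem inc_Vs : inc Vs := by
  simp [inc, Vs]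

end VD.M_P1

namespace VD

open VD.M_P1

/-- closed form evL (TT X Z): telescoping of vertex terms -/
theorem mP1 (hP1a : StP1a) (hP1b : StP1b) : StP1 := by
  intro X Z hZ hX
  have hZ' : (0 : ℝ) < Z := by exact_mod_cast hZ
  rw [hP1b X Z hZ']
  have h1 : Vs = (0, 3887) :: [(896,3839),(1776,3695),(2622,3461),(3415,3144),(4135,2759),
    (4768,2325),(5304,1860),(5738,1388),(6067,934),(6295,524),(6429,191),(6475,0)] := rfl
  have h2 := tele hP1a X Z hZ [(896,3839),(1776,3695),(2622,3461),(3415,3144),(4135,2759),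
    (4768,2325),(5304,1860),(5738,1388),(6067,934),(6295,524),(6429,191),(6475,0)] (0, 3887)
    inc_Vs
  rw [← h1] at h2
  rw [h2]
  have h3 : lst (0, 3887) [(896,3839),(1776,3695),(2622,3461),(3415,3144),(4135,2759),
    (4768,2325),(5304,1860),(5738,1388),(6067,934),(6295,524),(6429,191),(6475,0)] =
    (6475, 0) := rfl
  rw [h3]
  simp only [Nat.cast_zero, Nat.cast_ofNat]
  rw [Kf_zero, Kf_end, Kf_end]
  unfold TT
  rw [evL_append]
  have hXr : (X : ℝ) ≤ 6475 := by exact_mod_cast hX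
  unfold bot
  simp only [evL_cons, evL_nil, Tm.ev]
  push_cast [Nat.cast_sub hX]
  have e1 : ((6475 : ℝ) + X) * (6475 + X) + Z * Z = (6475 + X) ^ 2 + Z ^ 2 := by ring
  have e2 : ((6475 : ℝ) - X) * (6475 - X) + Z * Z = (6475 + -X) ^ 2 + Z ^ 2 := by ring
  rw [e1, e2, ← sub_eq_add_neg]
  ring

end VD
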