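import Pool.Agent.Helper50.VD.St
import Pool.Agent.Helper15.VD.M_P1

open MeasureTheory Set Filter Topology
open scoped ENNReal

noncomputable section

namespace VD.M_P2

open VD.M_P1

/-- closed form of one side on the axis -/
def WA (x0 h0 x1 h1 X : ℝ) : ℝ :=
  let n := (x1 - x0) ^ 2 + (h0 - h1) ^ 2
  let d := (x1 * h0 - x0 * h1) + (h0 - h1) * X
  let t0 := (x1 - x0) * (x0 + X) - (h0 - h1) * h0
  let t1 := (x1 - x0) * (x1 + X) - (h0 - h1) * h1
  (x1 - x0) / n * (t1 * Real.log ((x1 + X) ^ 2 + h1 ^ 2) -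
      t0 * Real.log ((x0 + X) ^ 2 + h0 ^ 2)) +
    2 * (x1 - x0) * |d| / n * (Real.arctan (t1 / |d|) - Real.arctan (t0 / |d|))

/-- primitive in the variable `t` -/
def GA (d n t : ℝ) : ℝ :=
  t * Real.log (d ^ 2 + t ^ 2) - t * Real.log n - 2 * t + 2 * |d| * Real.arctan (t / |d|)

theorem GA_cont (d n : ℝ) : Continuous (GA d n) := by
  have h1 : Continuous (fun t : ℝ => t * Real.log (d ^ 2 + t ^ 2)) :=
    cont_ulog.comp (Continuous.prodMk_right d)
  have h2 : Continuous (fun t : ℝ => Real.arctan (t / |d|)) :=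
    Real.continuous_arctan.comp (continuous_id.div_const _)
  unfold GA
  exact ((h1.sub (continuous_id.mul continuous_const)).sub
    (continuous_const.mul continuous_id)).add (continuous_const.mul h2)

theorem GA_deriv (d n t : ℝ) (ht : t ≠ 0) :
    HasDerivAt (GA d n) (Real.log (d ^ 2 + t ^ 2) - Real.log n) t := by
  have hp : d ^ 2 + t ^ 2 ≠ 0 := by positivity
  have h0 : HasDerivAt (fun t : ℝ => d ^ 2 + t ^ 2) (2 * t) t := by
    have := (hasDerivAt_pow 2 t).const_add (d ^ 2)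
    simpa using this
  have h1 : HasDerivAt (fun t : ℝ => t * Real.log (d ^ 2 + t ^ 2))
      (1 * Real.log (d ^ 2 + t ^ 2) + t * (2 * t / (d ^ 2 + t ^ 2))) t :=
    (hasDerivAt_id t).mul (h0.log hp)
  have h2 : HasDerivAt (fun t : ℝ => 2 * |d| * Real.arctan (t / |d|))
      (2 * |d| * (1 / (1 + (t / |d|) ^ 2) * (1 / |d|))) t := by
    have h3 : HasDerivAt (fun t : ℝ => t / |d|) (1 / |d|) t := (hasDerivAt_id t).div_const _
    exact (h3.arctan).const_mul _
  have h4 := ((h1.sub ((hasDerivAt_id t).mul_const (Real.log n))).sub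
    ((hasDerivAt_id t).const_mul 2)).add h2
  have h5 : 1 * Real.log (d ^ 2 + t ^ 2) + t * (2 * t / (d ^ 2 + t ^ 2)) - 1 * Real.log n -
      2 * 1 + 2 * |d| * (1 / (1 + (t / |d|) ^ 2) * (1 / |d|)) =
      Real.log (d ^ 2 + t ^ 2) - Real.log n := by
    by_cases hd : d = 0
    · subst hd
      simp only [abs_zero, mul_zero, zero_mul]
      field_simp
      ring
    · have ha : |d| ≠ 0 := abs_ne_zero.mpr hd
      have hs : d ^ 2 = |d| ^ 2 := (sq_abs d).symm
      rw [hs] at hp ⊢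
      have hp2 : 1 + (t / |d|) ^ 2 ≠ 0 := by positivity
      field_simp
      ring
  rw [h5] at h4
  exact h4

theorem sideA (x0 h0 x1 h1 X : ℝ) (hx : x0 < x1) :
    IntervalIntegrable (fun x => Real.log ((x + X) ^ 2 +
      (h0 + (h1 - h0) * ((x - x0) / (x1 - x0))) ^ 2)) volume x0 x1 ∧
    ∫ x in x0..x1, Real.log ((x + X) ^ 2 + (h0 + (h1 - h0) * ((x - x0) / (x1 - x0))) ^ 2) =
      WA x0 h0 x1 h1 X - 2 * (x1 - x0) := by
  have hD : 0 < x1 - x0 := sub_pos.mpr hx
  set f : ℝ → ℝ := fun x => (x + X) ^ 2 + (h0 + (h1 - h0) * ((x - x0) / (x1 - x0))) ^ 2 with hf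
  have hfn : ∀ x, 0 ≤ f x := fun x => by rw [hf]; positivity
  have hint : IntervalIntegrable (fun x => Real.log (f x)) volume x0 x1 := by
    have hm : MeromorphicOn f (Set.uIcc x0 x1) := by
      apply AnalyticOnNhd.meromorphicOn
      rw [hf]
      intro x _
      fun_prop
    have := hm.intervalIntegrable_log_norm
    simpa [Real.norm_eq_abs, Real.log_abs] using this
  refine ⟨hint, ?_⟩
  set n := (x1 - x0) ^ 2 + (h0 - h1) ^ 2 with hn
  have hnp : 0 < n := by rw [hn]; positivity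
  set d := (x1 * h0 - x0 * h1) + (h0 - h1) * X with hd
  set T : ℝ → ℝ := fun x => (x1 - x0) * (x + X) -
    (h0 - h1) * (h0 + (h1 - h0) * ((x - x0) / (x1 - x0))) with hT
  have hfT : ∀ x, n * f x = d ^ 2 + (T x) ^ 2 := by
    intro x
    rw [hn, hf, hT, hd]
    field_simp
    ring
  have hTd : ∀ x, HasDerivAt T (n / (x1 - x0)) x := by
    intro x
    have q1 : HasDerivAt T ((x1 - x0) * 1 - (h0 - h1) * ((h1 - h0) * (1 / (x1 - x0)))) x := by
      have a1 : HasDerivAt (fun x : ℝ => (x1 - x0) * (x + X)) ((x1 - x0) * 1) x :=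
        ((hasDerivAt_id x).add_const X).const_mul _
      have a2 : HasDerivAt (fun x : ℝ => (x - x0) / (x1 - x0)) (1 / (x1 - x0)) x :=
        ((hasDerivAt_id x).sub_const x0).div_const _
      exact a1.sub (((a2.const_mul (h1 - h0)).const_add h0).const_mul (h0 - h1))
    have h2 : (x1 - x0) * 1 - (h0 - h1) * ((h1 - h0) * (1 / (x1 - x0))) = n / (x1 - x0) := by
      rw [hn]
      field_simp
      ring
    rw [h2] at q1
    exact q1
  have hTc : Continuous T := by
    rw [hT]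
    fun_prop
  have hinj : Function.Injective T := by
    have : StrictMono T := by
      apply strictMono_of_deriv_pos
      intro x
      rw [(hTd x).deriv]
      positivity
    exact this.injective
  have hFTC := integral_eq_of_hasDerivAt_off_countable_of_le
    (fun x => (x1 - x0) / n * GA d n (T x)) (fun x => Real.log (f x)) hx.le
    (s := {x | T x = 0})
    (by
      apply Set.Subsingleton.countable
      intro a ha b hb
      exact hinj (by rw [Set.mem_ofPred_eq] at ha hb; rw [ha, hb]))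
    ((continuous_const.mul ((GA_cont d n).comp hTc)).continuousOn)
    (by
      intro x hx2
      have hx3 : T x ≠ 0 := hx2.2
      have h1 := ((GA_deriv d n (T x) hx3).comp x (hTd x)).const_mul ((x1 - x0) / n)
      have h2 : (x1 - x0) / n * ((Real.log (d ^ 2 + (T x) ^ 2) - Real.log n) *
          (n / (x1 - x0))) = Real.log (f x) := by
        rw [← hfT x, Real.log_mul hnp.ne' _]
        · field_simp
          ring
        · intro h0
          have := hfT x
          rw [h0, mul_zero] at this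
          nlinarith [sq_nonneg d, sq_pos_of_ne_zero hx3]
      rw [h2] at h1
      exact h1)
    hint
  rw [hFTC]
  have hT1 : T x1 = (x1 - x0) * (x1 + X) - (h0 - h1) * h1 := by
    rw [hT]
    simp only
    rw [div_self hD.ne']
    ring
  have hT0 : T x0 = (x1 - x0) * (x0 + X) - (h0 - h1) * h0 := by
    rw [hT]
    simp only
    rw [sub_self, zero_div]
    ring
  have key : ∀ x r : ℝ, f x = r → T x * Real.log (d ^ 2 + (T x) ^ 2) =
      T x * (Real.log n + Real.log r) := by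
    intro x r hr
    by_cases h : T x = 0
    · rw [h, zero_mul, zero_mul]
    · rw [← hfT x, hr, Real.log_mul hnp.ne' _]
      intro h0
      have := hfT x
      rw [hr, h0, mul_zero] at this
      nlinarith [sq_nonneg d, sq_pos_of_ne_zero h]
  have k1 := key x1 ((x1 + X) ^ 2 + h1 ^ 2) (by
    rw [hf]
    simp only
    rw [div_self hD.ne']
    ring)
  have k0 := key x0 ((x0 + X) ^ 2 + h0 ^ 2) (by
    rw [hf]
    simp only
    rw [sub_self, zero_div]
    ring)
  unfold GA WA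
  simp only
  rw [k1, k0, ← hn, ← hd, ← hT1, ← hT0]
  have hdiff : T x1 - T x0 = n := by
    rw [hT1, hT0, hn]
    ring
  have h9 : (x1 - x0) / n * (T x1 - T x0) = x1 - x0 := by
    rw [hdiff]
    field_simp
  linear_combination (-2) * h9

/-! ### the terms -/

theorem ev_edA' (dx d t0 t1 : ℤ) (n r0 r1 : ℕ) :
    evL (edA' dx d t0 t1 n r0 r1) = (dx : ℝ) / n * (t1 * Real.log r1 - t0 * Real.log r0) +
      2 * (dx : ℝ) * |(d : ℝ)| / n *
        (Real.arctan (t1 / |(d : ℝ)|) - Real.arctan (t0 / |(d : ℝ)|)) := by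
  unfold edA'
  split_ifs with h
  · rw [h]
    simp only [evL_append, evL_cons, evL_nil, ev_lg]
    push_cast
    rw [abs_zero]
    ring
  · simp only [evL_append, evL_cons, evL_nil, ev_atS, ev_lg]
    have hd : ((d.natAbs : ℕ) : ℝ) = |(d : ℝ)| := by
      rw [Nat.cast_natAbs, Int.cast_abs]
    rw [hd]
    push_cast
    ring

theorem ev_edA (x0 h0 x1 h1 X : ℤ) :
    evL (edA x0 h0 x1 h1 X) = WA x0 h0 x1 h1 X := by
  unfold edA WA
  rw [ev_edA']
  have hn : 0 ≤ (x1 - x0) * (x1 - x0) + (h0 - h1) * (h0 - h1) :=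
    add_nonneg (mul_self_nonneg _) (mul_self_nonneg _)
  have hr0 : 0 ≤ (x0 + X) * (x0 + X) + h0 * h0 :=
    add_nonneg (mul_self_nonneg _) (mul_self_nonneg _)
  have hr1 : 0 ≤ (x1 + X) * (x1 + X) + h1 * h1 :=
    add_nonneg (mul_self_nonneg _) (mul_self_nonneg _)
  rw [toNat_cast hn, toNat_cast hr0, toNat_cast hr1]
  push_cast
  have e0 : ((x0 : ℝ) + X) * (x0 + X) + h0 * h0 = (x0 + X) ^ 2 + (h0 : ℝ) ^ 2 := by ring
  have e1 : ((x1 : ℝ) + X) * (x1 + X) + h1 * h1 = (x1 + X) ^ 2 + (h1 : ℝ) ^ 2 := by ring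
  have e2 : ((x1 : ℝ) - x0) * (x1 - x0) + (h0 - h1) * (h0 - h1) =
      (x1 - x0) ^ 2 + (h0 - h1) ^ 2 := by ring
  rw [e0, e1, e2]

/-- the axis primitive -/
def Lf (X x : ℝ) : ℝ := (x + X) * Real.log ((x + X) ^ 2)

theorem sideB (x0 x1 X : ℝ) (hx : x0 < x1) :
    IntervalIntegrable (fun x => Real.log ((x + X) ^ 2)) volume x0 x1 ∧
    ∫ x in x0..x1, Real.log ((x + X) ^ 2) = Lf X x1 - Lf X x0 - 2 * (x1 - x0) := by
  have h := sideA x0 0 x1 0 X hx
  have hD : 0 < x1 - x0 := sub_pos.mpr hx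
  have h2 : ∀ x, (x + X) ^ 2 + ((0 : ℝ) + (0 - 0) * ((x - x0) / (x1 - x0))) ^ 2 =
      (x + X) ^ 2 := fun x => by ring
  simp only [h2] at h
  refine ⟨h.1, ?_⟩
  rw [h.2]
  have h3 : WA x0 0 x1 0 X = Lf X x1 - Lf X x0 := by
    unfold WA Lf
    simp only [mul_zero, sub_self, zero_mul, add_zero, ne_eq, OfNat.ofNat_ne_zero,
      not_false_eq_true, zero_pow, abs_zero, zero_div, sub_zero]
    field_simp
  rw [h3]

theorem edgeA (x0 h0 x1 h1 X : ℝ) (hx : x0 < x1) :
    IntervalIntegrable (fun x => Real.log ((x + X) ^ 2 +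
      (h0 + (h1 - h0) * ((x - x0) / (x1 - x0))) ^ 2) - Real.log ((x + X) ^ 2)) volume x0 x1 ∧
    ∫ x in x0..x1, (Real.log ((x + X) ^ 2 + (h0 + (h1 - h0) * ((x - x0) / (x1 - x0))) ^ 2) -
      Real.log ((x + X) ^ 2)) = WA x0 h0 x1 h1 X - (Lf X x1 - Lf X x0) := by
  have hA := sideA x0 h0 x1 h1 X hx
  have hB := sideB x0 x1 X hx
  refine ⟨hA.1.sub hB.1, ?_⟩
  rw [intervalIntegral.integral_sub hA.1 hB.1, hA.2, hB.2]
  ring

theorem teleA (X : ℕ) (l : List (ℕ × ℕ)) :
    ∀ a : ℕ × ℕ, inc (a :: l) → colA X (a :: l) = evL (edgesA X (a :: l)) -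
      ((Lf X (lst a l).1 + Lf (-X) (lst a l).1) - (Lf X a.1 + Lf (-X) a.1)) := by
  induction l with
  | nil =>
    intro a _
    show (0 : ℝ) = _
    simp only [lst, edgesA, evL_nil]
    ring
  | cons b l ih =>
    intro a h
    obtain ⟨hab, hl⟩ := h
    obtain ⟨x0, h0⟩ := a
    obtain ⟨x1, h1⟩ := b
    have hab' : (x0 : ℝ) < x1 := by exact_mod_cast hab
    have ih' := ih (x1, h1) hl
    show (∫ x in (x0 : ℝ)..(x1 : ℝ),
      (Real.log ((x - X) ^ 2 + (h0 + ((h1 : ℝ) - h0) * ((x - x0) / ((x1 : ℝ) - x0))) ^ 2) -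
        Real.log ((x - X) ^ 2) +
       (Real.log ((x + X) ^ 2 + (h0 + ((h1 : ℝ) - h0) * ((x - x0) / ((x1 : ℝ) - x0))) ^ 2) -
        Real.log ((x + X) ^ 2)))) +
      colA X ((x1, h1) :: l) = _
    rw [ih']
    have s1 := edgeA x0 h0 x1 h1 X hab'
    have s2 := edgeA x0 h0 x1 h1 (-X) hab'
    simp only [← sub_eq_add_neg] at s2
    rw [intervalIntegral.integral_add s2.1 s1.1, s1.2, s2.2]
    have e1 := ev_edA x0 h0 x1 h1 X
    have e2 := ev_edA x0 h0 x1 h1 (-X)
    push_cast at e1 e2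
    simp only [lst, edgesA, evL_append, e1, e2]
    ring

end VD.M_P2

namespace VD

open VD.M_P1 VD.M_P2

/-- closed form evL (TA X) on the axis -/
theorem mP2 (hP2b : StP2b) : StP2 := by
  intro X hX
  rw [hP2b X]
  have h1 : Vs = (0, 3887) :: [(896,3839),(1776,3695),(2622,3461),(3415,3144),(4135,2759),
    (4768,2325),(5304,1860),(5738,1388),(6067,934),(6295,524),(6429,191),(6475,0)] := rfl
  have h2 := teleA X [(896,3839),(1776,3695),(2622,3461),(3415,3144),(4135,2759),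
    (4768,2325),(5304,1860),(5738,1388),(6067,934),(6295,524),(6429,191),(6475,0)] (0, 3887)
    inc_Vs
  rw [← h1] at h2
  rw [h2]
  have h3 : lst (0, 3887) [(896,3839),(1776,3695),(2622,3461),(3415,3144),(4135,2759),
    (4768,2325),(5304,1860),(5738,1388),(6067,934),(6295,524),(6429,191),(6475,0)] =
    (6475, 0) := rfl
  rw [h3]
  unfold TA
  rw [evL_append]
  simp only [evL_cons, evL_nil, ev_lg, Nat.cast_zero, Nat.cast_ofNat]
  push_cast [Nat.cast_sub hX]
  have e1 : Lf X 0 + Lf (-X) 0 = 0 := by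
    unfold Lf
    rw [zero_add, zero_add, neg_sq]
    ring
  have e2 : Lf X 6475 = 2 * (6475 + X) * Real.log (6475 + X) := by
    unfold Lf
    rw [Real.log_pow]
    push_cast
    ring
  have e3 : Lf (-X) 6475 = 2 * (6475 - X) * Real.log (6475 - X) := by
    unfold Lf
    rw [Real.log_pow, ← sub_eq_add_neg]
    push_cast
    ring
  rw [e1, e2, e3]
  ring

end VD
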